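import Pool.Agent.TH550.WAP.Defs

/-!
# Means on real and complex weakly almost periodic functions
-/

set_option autoImplicit false
set_option linter.unusedSectionVars false
set_option linter.unusedVariables false
set_option linter.style.haveILetI false

open Filter Topology Set BoundedContinuousFunction

namespace Pool.Agent.TH550.WAP

variable {S : Type*} [Semigroup S] [TopologicalSpace S] [SeparatelyContinuousMul S]
variable {𝕂 : Type*} [RCLike 𝕂]

/-- a real linear operator on `C_b` induced by an operator on values -/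
noncomputable def post (g : ℂ →L[ℝ] 𝕂) : (S →ᵇ ℂ) →L[ℝ] (S →ᵇ 𝕂) :=
  g.compLeftContinuousBounded S

@[simp] theorem post_apply (g : ℂ →L[ℝ] 𝕂) (f : S →ᵇ ℂ) (s : S) : post g f s = g (f s) := rfl

theorem post_lt (g : ℂ →L[ℝ] 𝕂) (f : S →ᵇ ℂ) (s : S) : post g (lt s f) = lt s (post g f) := rfl

theorem wap_post (g : ℂ →L[ℝ] 𝕂) {f : S →ᵇ ℂ} (hf : IsWAP f) : IsWAP (post g f) := by
  have hre : ∀ l : StrongDual ℝ (S →ᵇ ℂ),
      Continuous fun v : WeakSpace ℂ (S →ᵇ ℂ) => l ((toWeakSpace ℂ (S →ᵇ ℂ)).symm v) := by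
    intro l
    let L : StrongDual ℂ (S →ᵇ ℂ) := StrongDual.extendRCLike (𝕜 := ℂ) l
    have h1 : Continuous fun v : WeakSpace ℂ (S →ᵇ ℂ) => L ((toWeakSpace ℂ (S →ᵇ ℂ)).symm v) :=
      WeakBilin.eval_continuous (topDualPairing ℂ (S →ᵇ ℂ)).flip L
    have h2 := RCLike.continuous_re.comp h1
    have e : (fun v : WeakSpace ℂ (S →ᵇ ℂ) => l ((toWeakSpace ℂ (S →ᵇ ℂ)).symm v)) =
        RCLike.re ∘ fun v : WeakSpace ℂ (S →ᵇ ℂ) => L ((toWeakSpace ℂ (S →ᵇ ℂ)).symm v) := by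
      funext v
      exact (StrongDual.re_extendRCLike_apply (𝕜 := ℂ) l _).symm
    rw [e]
    exact h2
  have hcont : Continuous fun v : WeakSpace ℂ (S →ᵇ ℂ) =>
      toWeakSpace 𝕂 (S →ᵇ 𝕂) (post g ((toWeakSpace ℂ (S →ᵇ ℂ)).symm v)) := by
    refine WeakBilin.continuous_of_continuous_eval _ fun L => ?_
    let L' : StrongDual 𝕂 (S →ᵇ 𝕂) := L
    let lr : StrongDual ℝ (S →ᵇ ℂ) :=
      (RCLike.reCLM.comp (L'.restrictScalars ℝ)).comp (post g)
    let li : StrongDual ℝ (S →ᵇ ℂ) :=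
      (RCLike.imCLM.comp (L'.restrictScalars ℝ)).comp (post g)
    have h1 := hre lr
    have h2 := hre li
    have h3 : Continuous fun v : WeakSpace ℂ (S →ᵇ ℂ) =>
        ((lr ((toWeakSpace ℂ (S →ᵇ ℂ)).symm v) : ℝ) : 𝕂) +
          ((li ((toWeakSpace ℂ (S →ᵇ ℂ)).symm v) : ℝ) : 𝕂) * RCLike.I :=
      (RCLike.continuous_ofReal.comp h1).add
        ((RCLike.continuous_ofReal.comp h2).mul continuous_const)
    refine h3.congr fun v => ?_
    exact RCLike.re_add_im (L' (post g ((toWeakSpace ℂ (S →ᵇ ℂ)).symm v)))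
  refine IsCompact.closure_of_subset (IsCompact.image hf hcont) ?_
  rintro _ ⟨_, ⟨a, rfl⟩, rfl⟩
  refine ⟨toWeakSpace ℂ (S →ᵇ ℂ) (lt a f), subset_closure ⟨_, ⟨a, rfl⟩, rfl⟩, ?_⟩
  rfl

/-- real part, as a map to `𝕂` -/
noncomputable def gre : ℂ →L[ℝ] 𝕂 := RCLike.ofRealCLM.comp Complex.reCLM

/-- imaginary part, as a map to `𝕂` -/
noncomputable def gim : ℂ →L[ℝ] 𝕂 := RCLike.ofRealCLM.comp Complex.imCLM

theorem exists_complex {m : (S →ᵇ 𝕂) → 𝕂} (hm : IsLIM m) : ∃ m' : (S →ᵇ ℂ) → ℂ, IsLIM m' := by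
  let R : (S →ᵇ ℂ) →L[ℝ] (S →ᵇ 𝕂) := post gre
  let J : (S →ᵇ ℂ) →L[ℝ] (S →ᵇ 𝕂) := post gim
  have hR : ∀ f : S →ᵇ ℂ, IsWAP f → IsWAP (R f) := fun f hf => wap_post _ hf
  have hJ : ∀ f : S →ᵇ ℂ, IsWAP f → IsWAP (J f) := fun f hf => wap_post _ hf
  have hz : IsWAP (0 : S →ᵇ 𝕂) := by
    have h1 : (toWeakSpace 𝕂 (S →ᵇ 𝕂) '' Set.range fun a : S => lt a 0) ⊆ {0} := by
      rintro _ ⟨_, ⟨a, rfl⟩, rfl⟩
      rfl
    exact isCompact_singleton.closure_of_subset h1
  have hm0 : m 0 = 0 := by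
    have := hm.smul 0 0 hz
    rwa [zero_smul, zero_mul] at this
  refine ⟨fun f => ((RCLike.re (m (R f)) : ℝ) : ℂ) + ((RCLike.re (m (J f)) : ℝ) : ℂ) * Complex.I,
    ?_, ?_, ?_, ?_, ?_⟩
  · intro f g hf hg
    rw [map_add, map_add, hm.add _ _ (hR f hf) (hR g hg), hm.add _ _ (hJ f hf) (hJ g hg),
      map_add, map_add]
    push_cast
    ring
  · intro c f hf
    have e1 : R (c • f) = ((c.re : ℝ) : 𝕂) • R f + ((-c.im : ℝ) : 𝕂) • J f := by
      ext s
      simp only [R, J, post_apply, gre, gim, BoundedContinuousFunction.add_apply,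
        BoundedContinuousFunction.smul_apply, ContinuousLinearMap.comp_apply, smul_eq_mul,
        Complex.reCLM_apply, Complex.imCLM_apply, RCLike.ofRealCLM_apply, Complex.mul_re]
      push_cast
      ring
    have e2 : J (c • f) = ((c.re : ℝ) : 𝕂) • J f + ((c.im : ℝ) : 𝕂) • R f := by
      ext s
      simp only [R, J, post_apply, gre, gim, BoundedContinuousFunction.add_apply,
        BoundedContinuousFunction.smul_apply, ContinuousLinearMap.comp_apply, smul_eq_mul,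
        Complex.reCLM_apply, Complex.imCLM_apply, RCLike.ofRealCLM_apply, Complex.mul_im]
      push_cast
      ring
    have w : ∀ (a : ℝ) (g : ℂ →L[ℝ] 𝕂), IsWAP (((a : ℝ) : 𝕂) • post g f) := by
      intro a g
      have : ((a : ℝ) : 𝕂) • post g f = post (a • g) f := by
        ext s
        simp only [BoundedContinuousFunction.smul_apply, post_apply,
          _root_.smul_apply, smul_eq_mul]
        rw [RCLike.real_smul_eq_coe_mul]
      rw [this]
      exact wap_post _ hf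
    have f1 : m (R (c • f)) = ((c.re : ℝ) : 𝕂) * m (R f) + ((-c.im : ℝ) : 𝕂) * m (J f) := by
      rw [e1, hm.add _ _ (w _ _) (w _ _), hm.smul _ _ (hR f hf), hm.smul _ _ (hJ f hf)]
    have f2 : m (J (c • f)) = ((c.re : ℝ) : 𝕂) * m (J f) + ((c.im : ℝ) : 𝕂) * m (R f) := by
      rw [e2, hm.add _ _ (w _ _) (w _ _), hm.smul _ _ (hJ f hf), hm.smul _ _ (hR f hf)]
    rw [f1, f2]
    apply Complex.ext
    · simp
      try ring
    · simp
      try ring
  · intro f hf h0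
    have hJ0 : J f = 0 := by
      ext s
      have := (h0 s).2
      change (((f s).im : ℝ) : 𝕂) = 0
      have h1 : (f s).im = 0 := this
      rw [h1, RCLike.ofReal_zero]
    have h1 := hm.nonneg (R f) (hR f hf) (fun s => by
      have := (h0 s).1
      change 0 ≤ RCLike.re (((f s).re : ℝ) : 𝕂) ∧ RCLike.im (((f s).re : ℝ) : 𝕂) = 0
      rw [RCLike.ofReal_re, RCLike.ofReal_im]
      exact ⟨this, rfl⟩)
    rw [hJ0, hm0]
    constructor
    · simpa using h1.1
    · simp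
  · have e1 : R 1 = 1 := by
      ext s
      change (((1 : ℂ).re : ℝ) : 𝕂) = 1
      simp
    have e2 : J 1 = 0 := by
      ext s
      change (((1 : ℂ).im : ℝ) : 𝕂) = 0
      simp
    rw [e1, e2, hm0, hm.one]
    simp
  · intro s f hf
    have e1 : R (lt s f) = lt s (R f) := rfl
    have e2 : J (lt s f) = lt s (J f) := rfl
    rw [e1, e2, hm.inv s _ (hR f hf), hm.inv s _ (hJ f hf)]

end Pool.Agent.TH550.WAP
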