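import Mathlib

/-!
# Weakly almost periodic functions and nonexpansive representations: definitions
-/

set_option autoImplicit false

open Topology BoundedContinuousFunction

namespace Pool.Agent.TH550.WAP

section Semigroup

variable {S : Type*} [Semigroup S] [TopologicalSpace S] [SeparatelyContinuousMul S]
variable {𝕂 : Type*} [RCLike 𝕂]

/-- The left translate `ℓ_a f (t) = f (a t)`. -/
noncomputable def lt (a : S) (f : S →ᵇ 𝕂) : S →ᵇ 𝕂 :=
  f.compContinuous ⟨fun t => a * t, SeparatelyContinuousMul.continuous_const_mul⟩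

/-- `f` is weakly almost periodic: its orbit under left translations is relatively weakly compact
in `C_b(S)`. -/
def IsWAP (f : S →ᵇ 𝕂) : Prop :=
  IsCompact (closure (toWeakSpace 𝕂 (S →ᵇ 𝕂) '' Set.range fun a : S => lt a f))

/-- `m` is a left invariant mean on `WAP(S)`: it is linear, nonnegative and normalised there, and
invariant under left translations. -/
structure IsLIM (m : (S →ᵇ 𝕂) → 𝕂) : Prop where
  add : ∀ f g, IsWAP f → IsWAP g → m (f + g) = m f + m g
  smul : ∀ (c : 𝕂) (f), IsWAP f → m (c • f) = c * m f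
  nonneg : ∀ f, IsWAP f → (∀ s, 0 ≤ RCLike.re (f s) ∧ RCLike.im (f s) = 0) →
    0 ≤ RCLike.re (m f) ∧ RCLike.im (m f) = 0
  one : m 1 = 1
  inv : ∀ (s : S) (f), IsWAP f → m (lt s f) = m f

end Semigroup

section Rep

variable {S : Type*} [Semigroup S] [TopologicalSpace S]
variable {𝕜 : Type*} [RCLike 𝕜] {E : Type*} [AddCommGroup E] [Module 𝕜 E] [TopologicalSpace E]

/-- `T` is a representation of `S` on the subset `C` of `E` (with the weak topology) which is weakly
separately continuous, weakly quasi-equicontinuous and nonexpansive for the seminorms `q`. -/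
structure IsRep {ι : Type*} (q : ι → Seminorm 𝕜 E) (C : Set (WeakSpace 𝕜 E)) (T : S → C → C) :
    Prop where
  mul : ∀ s t x, T (s * t) x = T s (T t x)
  cont_left : ∀ x, Continuous fun s => T s x
  cont_right : ∀ s, Continuous (T s)
  quasi : ∀ σ ∈ closure (Set.range T), Continuous σ
  nonexp : ∀ (i : ι) (s : S) (x y : C),
    q i ((toWeakSpace 𝕜 E).symm (T s x) - (toWeakSpace 𝕜 E).symm (T s y)) ≤
      q i ((toWeakSpace 𝕜 E).symm x - (toWeakSpace 𝕜 E).symm y)

end Rep

end Pool.Agent.TH550.WAP
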