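import Pool.Agent.TH550.WAP.Groth
import Pool.Agent.TH550.WAP.Defs

/-!
# The enveloping semigroup of a quasi-equicontinuous action with an invariant mean
-/

set_option autoImplicit false
set_option linter.unusedSectionVars false
set_option linter.unusedVariables false
set_option linter.style.haveILetI false

open Filter Topology Set BoundedContinuousFunction

namespace Pool.Agent.TH550.WAP

variable {S : Type*} [Semigroup S] [TopologicalSpace S] [SeparatelyContinuousMul S]
variable {X : Type*} [TopologicalSpace X] [CompactSpace X] [T2Space X]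

/-- A quasi-equicontinuous, separately continuous action of `S` on a compact space. -/
structure Act (T : S → X → X) : Prop where
  mul : ∀ s t x, T (s * t) x = T s (T t x)
  cont_left : ∀ x, Continuous fun s => T s x
  quasi : ∀ σ ∈ closure (range T), Continuous σ

theorem Act.cont_right {T : S → X → X} (hT : Act T) (s : S) : Continuous (T s) :=
  hT.quasi _ (subset_closure ⟨s, rfl⟩)

/-- The function `s ↦ h (T s x)`. -/
noncomputable def pullF (T : S → X → X) (hT : Act T) (x : X) (h : C(X, ℂ)) : S →ᵇ ℂ :=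
  BoundedContinuousFunction.ofNormedAddCommGroup (fun s => h (T s x))
    ((map_continuous h).comp (hT.cont_left x)) ‖h‖ (fun s => h.norm_coe_le_norm _)

@[simp] theorem pullF_apply (T : S → X → X) (hT : Act T) (x : X) (h : C(X, ℂ)) (s : S) :
    pullF T hT x h s = h (T s x) := rfl

/-- `h ↦ (s ↦ h (T s x))` as a bounded operator. -/
noncomputable def pull (T : S → X → X) (hT : Act T) (x : X) : C(X, ℂ) →L[ℂ] (S →ᵇ ℂ) :=
  LinearMap.mkContinuous
    { toFun := pullF T hT x
      map_add' := fun h k => by ext s; rfl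
      map_smul' := fun c h => by ext s; rfl } 1
    (fun h => by
      rw [one_mul]
      exact (BoundedContinuousFunction.norm_le (norm_nonneg h)).2 fun s => h.norm_coe_le_norm _)

@[simp] theorem pull_apply (T : S → X → X) (hT : Act T) (x : X) (h : C(X, ℂ)) (s : S) :
    pull T hT x h s = h (T s x) := rfl

/-- the enveloping semigroup -/
def Env (T : S → X → X) : Set (X → X) := closure (range T)

theorem env_compact (T : S → X → X) : IsCompact (Env T) :=
  isClosed_closure.isCompact

/-- composition `h ∘ σ` -/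
noncomputable def comp (T : S → X → X) (hT : Act T) (h : C(X, ℂ)) (σ : Env T) : C(X, ℂ) :=
  h.comp ⟨σ.1, hT.quasi σ.1 σ.2⟩

@[simp] theorem comp_apply (T : S → X → X) (hT : Act T) (h : C(X, ℂ)) (σ : Env T) (x : X) :
    comp T hT h σ x = h (σ.1 x) := rfl

theorem cont_comp (T : S → X → X) (hT : Act T) (h : C(X, ℂ)) (Λ : StrongDual ℂ C(X, ℂ)) :
    Continuous fun σ : Env T => Λ (comp T hT h σ) := by
  haveI : CompactSpace (Env T) := isCompact_iff_compactSpace.1 (env_compact T)
  refine continuous_functional (comp T hT h) ‖h‖ (fun σ x => h.norm_coe_le_norm _) (fun x => ?_) Λ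
  exact (map_continuous h).comp ((continuous_apply x).comp continuous_subtype_val)

theorem wap_pull (T : S → X → X) (hT : Act T) (x : X) (h : C(X, ℂ)) :
    IsWAP (pull T hT x h) := by
  haveI : CompactSpace (Env T) := isCompact_iff_compactSpace.1 (env_compact T)
  have hcont : Continuous fun σ : Env T =>
      toWeakSpace ℂ (S →ᵇ ℂ) (pull T hT x (comp T hT h σ)) := by
    refine WeakBilin.continuous_of_continuous_eval _ fun L => ?_
    exact cont_comp T hT h ((L : StrongDual ℂ (S →ᵇ ℂ)).comp (pull T hT x))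
  refine IsCompact.closure_of_subset (isCompact_range hcont) ?_
  rintro _ ⟨_, ⟨a, rfl⟩, rfl⟩
  refine ⟨⟨T a, subset_closure ⟨a, rfl⟩⟩, ?_⟩
  have key : pull T hT x (comp T hT h ⟨T a, subset_closure ⟨a, rfl⟩⟩) = lt a (pull T hT x h) := by
    ext s
    change h (T a (T s x)) = h (T (a * s) x)
    rw [hT.mul]
  exact congrArg (toWeakSpace ℂ (S →ᵇ ℂ)) key

/-- the linear functional `h ↦ m (s ↦ h (T s x))` -/
noncomputable def meanL {m : (S →ᵇ ℂ) → ℂ} (hm : IsLIM m) (T : S → X → X) (hT : Act T) (x : X) :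
    C(X, ℂ) →ₗ[ℂ] ℂ where
  toFun h := m (pull T hT x h)
  map_add' h k := by
    rw [map_add]
    exact hm.add _ _ (wap_pull T hT x h) (wap_pull T hT x k)
  map_smul' c h := by
    rw [map_smul]
    exact hm.smul _ _ (wap_pull T hT x h)

theorem meanL_nonneg {m : (S →ᵇ ℂ) → ℂ} (hm : IsLIM m) (T : S → X → X) (hT : Act T) (x : X)
    (h : C(X, ℂ)) (h0 : ∀ s, 0 ≤ (h (T s x)).re ∧ (h (T s x)).im = 0) :
    0 ≤ (meanL hm T hT x h).re ∧ (meanL hm T hT x h).im = 0 :=
  hm.nonneg _ (wap_pull T hT x h) h0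

theorem meanL_one {m : (S →ᵇ ℂ) → ℂ} (hm : IsLIM m) (T : S → X → X) (hT : Act T) (x : X) :
    meanL hm T hT x 1 = 1 := by
  have : pull T hT x 1 = 1 := by ext s; rfl
  change m (pull T hT x 1) = 1
  rw [this, hm.one]

/-- a real continuous function as a complex one -/
def toC (f : C(X, ℝ)) : C(X, ℂ) := ⟨fun x => (f x : ℂ), by fun_prop⟩

@[simp] theorem toC_apply (f : C(X, ℝ)) (x : X) : toC f x = (f x : ℂ) := rfl

theorem meanL_real_bound {m : (S →ᵇ ℂ) → ℂ} (hm : IsLIM m) (T : S → X → X) (hT : Act T) (x : X)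
    (f : C(X, ℝ)) (r : ℝ) (hr : ∀ y, |f y| ≤ r) : ‖meanL hm T hT x (toC f)‖ ≤ r := by
  have h1 := meanL_nonneg hm T hT x ((r : ℂ) • 1 + toC f) (fun s => by
    have := abs_le.1 (hr (T s x))
    simp
    linarith)
  have h2 := meanL_nonneg hm T hT x ((r : ℂ) • 1 - toC f) (fun s => by
    have := abs_le.1 (hr (T s x))
    simp
    linarith)
  rw [map_add, map_smul, meanL_one] at h1
  rw [map_sub, map_smul, meanL_one] at h2
  simp at h1 h2
  have h3 : meanL hm T hT x (toC f) = ((meanL hm T hT x (toC f)).re : ℂ) := by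
    apply Complex.ext
    · simp
    · simp [h1.2]
  rw [h3, Complex.norm_real, Real.norm_eq_abs, abs_le]
  constructor <;> linarith

/-- the mean as a continuous functional -/
noncomputable def mean {m : (S →ᵇ ℂ) → ℂ} (hm : IsLIM m) (T : S → X → X) (hT : Act T) (x : X) :
    StrongDual ℂ C(X, ℂ) :=
  (meanL hm T hT x).mkContinuous 2 (fun h => by
    let hr : C(X, ℝ) := ⟨fun y => (h y).re, by fun_prop⟩
    let hi : C(X, ℝ) := ⟨fun y => (h y).im, by fun_prop⟩
    have e : h = toC hr + Complex.I • toC hi := by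
      ext y
      simp only [ContinuousMap.add_apply, ContinuousMap.smul_apply, toC_apply, smul_eq_mul]
      change h y = ((h y).re : ℂ) + Complex.I * ((h y).im : ℂ)
      rw [mul_comm]
      exact (Complex.re_add_im (h y)).symm
    have b1 := meanL_real_bound hm T hT x hr ‖h‖
      (fun y => (Complex.abs_re_le_norm _).trans (h.norm_coe_le_norm y))
    have b2 := meanL_real_bound hm T hT x hi ‖h‖
      (fun y => (Complex.abs_im_le_norm _).trans (h.norm_coe_le_norm y))
    calc ‖meanL hm T hT x h‖ = ‖meanL hm T hT x (toC hr) +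
          Complex.I • meanL hm T hT x (toC hi)‖ := by
            conv_lhs => rw [e]
            rw [map_add, map_smul]
      _ ≤ ‖meanL hm T hT x (toC hr)‖ + ‖Complex.I • meanL hm T hT x (toC hi)‖ := norm_add_le _ _
      _ ≤ ‖h‖ + ‖h‖ := by
            rw [norm_smul, Complex.norm_I, one_mul]
            exact add_le_add b1 b2
      _ = 2 * ‖h‖ := by ring)

theorem mean_apply {m : (S →ᵇ ℂ) → ℂ} (hm : IsLIM m) (T : S → X → X) (hT : Act T) (x : X)
    (h : C(X, ℂ)) : mean hm T hT x h = m (pull T hT x h) := rfl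

theorem mean_comp {m : (S →ᵇ ℂ) → ℂ} (hm : IsLIM m) (T : S → X → X) (hT : Act T) (x : X)
    (h : C(X, ℂ)) (σ : Env T) : mean hm T hT x (comp T hT h σ) = mean hm T hT x h := by
  have hcl : IsClosed {σ : Env T | mean hm T hT x (comp T hT h σ) = mean hm T hT x h} :=
    isClosed_eq (cont_comp T hT h _) continuous_const
  have hdense : Dense {σ : Env T | ∃ s, σ.1 = T s} := by
    rw [dense_iff_closure_eq, eq_univ_iff_forall]
    intro σ
    rw [closure_subtype]
    refine closure_mono ?_ σ.2
    rintro _ ⟨s, rfl⟩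
    exact ⟨⟨T s, subset_closure ⟨s, rfl⟩⟩, ⟨s, rfl⟩, rfl⟩
  have hsub : {σ : Env T | ∃ s, σ.1 = T s} ⊆
      {σ : Env T | mean hm T hT x (comp T hT h σ) = mean hm T hT x h} := by
    rintro σ ⟨s, hs⟩
    change m (pull T hT x (comp T hT h σ)) = m (pull T hT x h)
    rw [← hm.inv s _ (wap_pull T hT x h)]
    congr 1
    ext t
    change h (σ.1 (T t x)) = h (T (s * t) x)
    rw [hs, hT.mul]
  have := hcl.closure_subset_iff.2 hsub
  rw [hdense.closure_eq] at this
  exact this (mem_univ σ)

/-- minimal closed invariant sets -/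
structure MinInv (T : S → X → X) (F : Set X) : Prop where
  closed : IsClosed F
  nonempty : F.Nonempty
  inv : ∀ s, ∀ x ∈ F, T s x ∈ F
  min : ∀ F' ⊆ F, IsClosed F' → F'.Nonempty → (∀ s, ∀ x ∈ F', T s x ∈ F') → F' = F

theorem MinInv.orbit [Nonempty S] {T : S → X → X} (hT : Act T) {F : Set X} (hF : MinInv T F)
    {x : X} (hx : x ∈ F) : closure (range fun s => T s x) = F := by
  apply hF.min
  · apply closure_minimal _ hF.closed
    rintro _ ⟨s, rfl⟩
    exact hF.inv s x hx
  · exact isClosed_closure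
  · exact (range_nonempty _).closure
  · intro s y hy
    have h1 : MapsTo (T s) (range fun s => T s x) (range fun s => T s x) := by
      rintro _ ⟨t, rfl⟩
      exact ⟨s * t, hT.mul _ _ _⟩
    exact h1.closure (hT.cont_right s) hy

theorem MinInv.env_mem {T : S → X → X} {F : Set X} (hF : MinInv T F) {σ : X → X}
    (hσ : σ ∈ Env T) {x : X} (hx : x ∈ F) : σ x ∈ F := by
  have h1 : IsClosed {σ : X → X | σ x ∈ F} := hF.closed.preimage (continuous_apply x)
  have h2 : range T ⊆ {σ : X → X | σ x ∈ F} := by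
    rintro _ ⟨s, rfl⟩
    exact hF.inv s x hx
  exact (h1.closure_subset_iff.2 h2) hσ

theorem MinInv.onto [Nonempty S] {m : (S →ᵇ ℂ) → ℂ} (hm : IsLIM m) {T : S → X → X} (hT : Act T)
    {F : Set X} (hF : MinInv T F) {σ : X → X} (hσ : σ ∈ Env T) : σ '' F = F := by
  classical
  apply Subset.antisymm
  · rintro _ ⟨x, hx, rfl⟩
    exact hF.env_mem hσ hx
  · intro y0 hy0
    by_contra hnot
    obtain ⟨x, hx⟩ := hF.nonempty
    have hclσ : IsClosed (σ '' F) := (hF.closed.isCompact.image (hT.quasi σ hσ)).isClosed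
    obtain ⟨f, hf0, hf1, hf01⟩ := exists_continuous_zero_one_of_isClosed hclσ
      (isClosed_singleton (x := y0)) (by
        rw [disjoint_singleton_right]; exact hnot)
    -- the mean of `f` vanishes
    have hz : mean hm T hT x (toC f) = 0 := by
      rw [← mean_comp hm T hT x (toC f) ⟨σ, hσ⟩]
      have : pull T hT x (comp T hT (toC f) ⟨σ, hσ⟩) = pull T hT x 0 := by
        ext s
        change ((f (σ (T s x)) : ℝ) : ℂ) = 0
        rw [hf0 ⟨T s x, hF.inv s x hx, rfl⟩]
        simp
      rw [mean_apply, this, ← mean_apply hm T hT x, map_zero]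
    -- but finitely many translates dominate a constant
    have hcover : F ⊆ ⋃ s, (T s) ⁻¹' {y | 1 / 2 < f y} := by
      intro y hy
      have hcl : y0 ∈ closure (range fun s => T s y) := by rw [hF.orbit hT hy]; exact hy0
      have hopen : IsOpen {y | 1 / 2 < f y} := isOpen_lt continuous_const (map_continuous f)
      have hmem : y0 ∈ {y | 1 / 2 < f y} := by
        have := hf1 (mem_singleton y0)
        change 1 / 2 < f y0
        rw [this]
        norm_num
      obtain ⟨_, hz1, ⟨s, rfl⟩⟩ := mem_closure_iff.1 hcl _ hopen hmem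
      exact mem_iUnion.2 ⟨s, hz1⟩
    obtain ⟨t, ht⟩ := hF.closed.isCompact.elim_finite_subcover _
      (fun s => (isOpen_lt continuous_const (map_continuous f)).preimage (hT.cont_right s)) hcover
    let g : C(X, ℂ) := ∑ s ∈ t, (2 : ℂ) • comp T hT (toC f) ⟨T s, subset_closure ⟨s, rfl⟩⟩
    have hg0 : mean hm T hT x g = 0 := by
      simp only [g]
      rw [map_sum]
      apply Finset.sum_eq_zero
      intro s _
      rw [map_smul, mean_comp, hz, smul_zero]
    have hg1 := meanL_nonneg hm T hT x (g - 1) (fun s => by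
      have hTs : T s x ∈ F := hF.inv s x hx
      have hval : (g - 1) (T s x) = ((∑ r ∈ t, 2 * f (T r (T s x)) - 1 : ℝ) : ℂ) := by
        simp only [g, ContinuousMap.sub_apply, ContinuousMap.sum_apply, ContinuousMap.smul_apply,
          comp_apply, toC_apply, smul_eq_mul, ContinuousMap.one_apply]
        push_cast
        rfl
      rw [hval]
      refine ⟨?_, by simp⟩
      rw [Complex.ofReal_re]
      obtain ⟨r, hr, hrU⟩ : ∃ r ∈ t, T s x ∈ (T r) ⁻¹' {y | 1 / 2 < f y} := by
        have := ht hTs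
        simpa only [mem_iUnion, exists_prop] using this
      have h1 : 2 * f (T r (T s x)) ≤ ∑ r ∈ t, 2 * f (T r (T s x)) :=
        Finset.single_le_sum (f := fun r => 2 * f (T r (T s x)))
          (fun i _ => by have := (hf01 (T i (T s x))).1; positivity) hr
      have h2 : 1 / 2 < f (T r (T s x)) := hrU
      linarith)
    have hg2 : meanL hm T hT x (g - 1) = mean hm T hT x g - 1 := by
      rw [map_sub, meanL_one]; rfl
    rw [hg2, hg0] at hg1
    have := hg1.1
    norm_num at this

/-- Ellis' argument: in a compact semigroup of surjections of `F`, every element has a left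
inverse on `F`. -/
theorem exists_left_inv {A : Set (X → X)} (hA : IsClosed A)
    (hmul : ∀ σ ∈ A, ∀ τ ∈ A, σ ∘ τ ∈ A) {F : Set X} (hF : ∀ σ ∈ A, σ '' F = F)
    {σ : X → X} (hσ : σ ∈ A) : ∃ τ ∈ A, ∀ y ∈ F, τ (σ y) = y := by
  letI : Semigroup (X → X) := { mul := fun f g => f ∘ g, mul_assoc := fun _ _ _ => rfl }
  let B : Set (X → X) := (fun τ : X → X => (τ ∘ σ : X → X)) '' A
  have hright : ∀ r : X → X, Continuous fun f : X → X => (f ∘ r : X → X) := fun r =>
    continuous_pi fun x => continuous_apply (r x)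
  have hBc : IsCompact B := hA.isCompact.image (hright σ)
  obtain ⟨e, ⟨τ, hτ, rfl⟩, he⟩ := exists_idempotent_in_compact_subsemigroup
    (M := X → X) (fun r => hright r) B ⟨_, ⟨σ, hσ, rfl⟩⟩ hBc (by
      rintro _ ⟨τ, hτ, rfl⟩ _ ⟨τ', hτ', rfl⟩
      exact ⟨τ ∘ σ ∘ τ', hmul _ hτ _ (hmul _ hσ _ hτ'), rfl⟩)
  refine ⟨τ, hτ, fun y hy => ?_⟩
  have hons : (τ ∘ σ) '' F = F := hF _ (hmul _ hτ _ hσ)
  rw [← hons] at hy
  obtain ⟨z, -, rfl⟩ := hy
  exact congrFun he z

/-- the closure of a composition closed set of continuous maps is composition closed -/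
theorem closure_comp {R : Set (X → X)} (hc : ∀ σ ∈ R, Continuous σ)
    (hmul : ∀ σ ∈ R, ∀ τ ∈ R, σ ∘ τ ∈ R) : ∀ σ ∈ closure R, ∀ τ ∈ closure R, σ ∘ τ ∈ closure R := by
  intro σ hσ τ hτ
  have h1 : ∀ ρ ∈ R, ρ ∘ τ ∈ closure R := by
    intro ρ hρ
    have hcont : Continuous fun f : X → X => (ρ ∘ f : X → X) :=
      continuous_pi fun x => (hc ρ hρ).comp (continuous_apply x)
    have hm : MapsTo (fun f : X → X => (ρ ∘ f : X → X)) R R := fun f hf => hmul _ hρ _ hf
    exact hm.closure hcont hτ
  have hright : Continuous fun f : X → X => (f ∘ τ : X → X) :=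
    continuous_pi fun x => continuous_apply (τ x)
  have hm : MapsTo (fun f : X → X => (f ∘ τ : X → X)) R (closure R) := h1
  have := hm.closure hright hσ
  rwa [closure_closure] at this

end Pool.Agent.TH550.WAP
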