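import Pool.Agent.TH550.WAP.TB

/-!
# Common fixed points
-/

set_option autoImplicit false
set_option linter.unusedSectionVars false
set_option linter.unusedVariables false
set_option linter.style.haveILetI false

open Filter Topology Set BoundedContinuousFunction

namespace Pool.Agent.TH550.WAP

section Space

variable {𝕜 : Type*} [RCLike 𝕜] {E : Type*} [AddCommGroup E] [Module 𝕜 E] [Module ℝ E]
  [IsScalarTower ℝ 𝕜 E] [TopologicalSpace E]
variable {ι : Type*} {q : SeminormFamily 𝕜 E ι}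

theorem weak_t2 [T2Space E] (hq : WithSeminorms q) : T2Space (WeakSpace 𝕜 E) := by
  haveI := hq.topologicalAddGroup
  haveI := hq.continuousSMul
  haveI := hq.toLocallyConvexSpace
  haveI : SeparatingDual 𝕜 E := ⟨fun x hx => by
    obtain ⟨f, hf⟩ := RCLike.geometric_hahn_banach_point_point (𝕜 := 𝕜) hx
    refine ⟨f, fun h => ?_⟩
    rw [h] at hf
    simp at hf⟩
  infer_instance

theorem closed_ball_weak (hq : WithSeminorms q) (i : ι) (r : ℝ) :
    IsClosed {v : WeakSpace 𝕜 E | q i ((toWeakSpace 𝕜 E).symm v) ≤ r} := by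
  haveI := hq.topologicalAddGroup
  haveI := hq.continuousSMul
  haveI := hq.toLocallyConvexSpace
  have h1 : IsClosed {v : E | q i v ≤ r} :=
    isClosed_le (hq.continuous_seminorm i) continuous_const
  have h2 : Convex ℝ {v : E | q i v ≤ r} := by
    have : {v : E | q i v ≤ r} = (q i).closedBall 0 r := by
      ext v; simp
    rw [this]
    exact (q i).convex_closedBall 0 r
  have h3 := h2.toWeakSpace_closure 𝕜
  rw [h1.closure_eq] at h3
  have h4 : (toWeakSpace 𝕜 E) '' {v : E | q i v ≤ r} =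
      {v : WeakSpace 𝕜 E | q i ((toWeakSpace 𝕜 E).symm v) ≤ r} := by
    ext v
    constructor
    · rintro ⟨w, hw, rfl⟩
      change q i ((toWeakSpace 𝕜 E).symm (toWeakSpace 𝕜 E w)) ≤ r
      rw [LinearEquiv.symm_apply_apply]
      exact hw
    · intro hv
      exact ⟨(toWeakSpace 𝕜 E).symm v, hv, LinearEquiv.apply_symm_apply _ _⟩
  rw [← h4, h3]
  exact isClosed_closure

theorem sep_weak (hq : WithSeminorms q) (i : ι) (A : Set (WeakSpace 𝕜 E)) (hA : A.Countable)
    (ε : ℝ) (hε : 0 < ε) :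
    ∃ V : ℕ → Set (WeakSpace 𝕜 E), (∀ n, IsClosed (V n)) ∧
      (∀ n, ∀ x ∈ V n, ∀ y ∈ V n,
        q i ((toWeakSpace 𝕜 E).symm x - (toWeakSpace 𝕜 E).symm y) ≤ ε) ∧
      closure A ⊆ ⋃ n, V n := by
  haveI := hq.topologicalAddGroup
  haveI := hq.continuousSMul
  haveI := hq.toLocallyConvexSpace
  let A' : Set E := (toWeakSpace 𝕜 E).symm '' A
  have hsep : TopologicalSpace.IsSeparable (Submodule.span 𝕜 A' : Set E) :=
    (hA.image _).isSeparable.span
  obtain ⟨D, hDc, hD⟩ := hsep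
  have hDne : D.Nonempty := by
    have h0 : (0 : E) ∈ closure D := hD (Submodule.zero_mem _)
    exact closure_nonempty_iff.1 ⟨0, h0⟩
  obtain ⟨f, rfl⟩ := hDc.exists_eq_range hDne
  have hcl : closure A ⊆ (toWeakSpace 𝕜 E) '' closure (range f) := by
    have hconv : Convex ℝ (Submodule.span 𝕜 A' : Set E) :=
      ((Submodule.span 𝕜 A').restrictScalars ℝ).convex
    have h1 : A ⊆ (toWeakSpace 𝕜 E) '' (Submodule.span 𝕜 A' : Set E) := by
      intro a ha
      exact ⟨(toWeakSpace 𝕜 E).symm a, Submodule.subset_span ⟨a, ha, rfl⟩,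
        LinearEquiv.apply_symm_apply _ _⟩
    have h2 := hconv.toWeakSpace_closure 𝕜
    refine (closure_mono h1).trans ?_
    rw [← h2]
    refine image_mono ?_
    exact closure_minimal hD isClosed_closure
  refine ⟨fun n => {v | q i ((toWeakSpace 𝕜 E).symm (v - toWeakSpace 𝕜 E (f n))) ≤ ε / 2},
    fun n => ?_, fun n x hx y hy => ?_, ?_⟩
  · have hc : Continuous fun v : WeakSpace 𝕜 E => v - toWeakSpace 𝕜 E (f n) :=
      continuous_id.sub continuous_const
    exact (closed_ball_weak hq i (ε / 2)).preimage hc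
  · have hx' : q i ((toWeakSpace 𝕜 E).symm x - f n) ≤ ε / 2 := by
      have : q i ((toWeakSpace 𝕜 E).symm (x - toWeakSpace 𝕜 E (f n))) ≤ ε / 2 := hx
      rwa [map_sub, LinearEquiv.symm_apply_apply] at this
    have hy' : q i ((toWeakSpace 𝕜 E).symm y - f n) ≤ ε / 2 := by
      have : q i ((toWeakSpace 𝕜 E).symm (y - toWeakSpace 𝕜 E (f n))) ≤ ε / 2 := hy
      rwa [map_sub, LinearEquiv.symm_apply_apply] at this
    have e : (toWeakSpace 𝕜 E).symm x - (toWeakSpace 𝕜 E).symm y =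
        ((toWeakSpace 𝕜 E).symm x - f n) - ((toWeakSpace 𝕜 E).symm y - f n) := by abel
    rw [e]
    calc _ ≤ q i ((toWeakSpace 𝕜 E).symm x - f n) + q i ((toWeakSpace 𝕜 E).symm y - f n) :=
          map_sub_le_add _ _ _
      _ ≤ ε := by linarith
  · intro x hx
    obtain ⟨e, he, rfl⟩ := hcl hx
    have hopen : IsOpen {v : E | q i (e - v) < ε / 2} :=
      isOpen_lt ((hq.continuous_seminorm i).comp (continuous_const.sub continuous_id))
        continuous_const
    have hmem : e ∈ {v : E | q i (e - v) < ε / 2} := by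
      change q i (e - e) < ε / 2
      rw [sub_self, map_zero]
      positivity
    obtain ⟨_, hz1, ⟨n, rfl⟩⟩ := mem_closure_iff.1 he _ hopen hmem
    refine mem_iUnion.2 ⟨n, ?_⟩
    change q i ((toWeakSpace 𝕜 E).symm (toWeakSpace 𝕜 E e - toWeakSpace 𝕜 E (f n))) ≤ ε / 2
    rw [map_sub, LinearEquiv.symm_apply_apply, LinearEquiv.symm_apply_apply]
    exact le_of_lt hz1

end Space

/-- Minimal elements in families of closed sets stable under intersections. -/
theorem exists_minimal {X : Type*} [TopologicalSpace X] [CompactSpace X] (P : Set X → Prop)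
    (hPc : ∀ K, P K → IsClosed K)
    (hP : ∀ c : Set (Set X), c.Nonempty → (∀ K ∈ c, P K) → P (⋂₀ c)) (K0 : Set X)
    (h0 : P K0) (hne : K0.Nonempty) :
    ∃ K ⊆ K0, P K ∧ K.Nonempty ∧ ∀ K' ⊆ K, P K' → K'.Nonempty → K' = K := by
  obtain ⟨K, hKK0, hK⟩ := zorn_superset_nonempty {K : Set X | P K ∧ K.Nonempty} (by
    intro c hc hchain hcne
    haveI : Nonempty c := hcne.to_subtype
    refine ⟨⋂₀ c, ⟨hP c hcne fun K hK => (hc hK).1, ?_⟩, fun K hK => sInter_subset_of_mem hK⟩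
    refine IsCompact.nonempty_sInter_of_directed_nonempty_isCompact_isClosed ?_
      (fun K hK => (hc hK).2) (fun K hK => (hPc K (hc hK).1).isCompact)
      (fun K hK => hPc K (hc hK).1)
    intro K hK L hL
    rcases eq_or_ne K L with h | h
    · subst h
      exact ⟨K, hK, subset_rfl, subset_rfl⟩
    · rcases hchain hK hL h with h' | h'
      · exact ⟨K, hK, subset_rfl, h'⟩
      · exact ⟨L, hL, h', subset_rfl⟩) K0 ⟨h0, hne⟩
  refine ⟨K, hKK0, hK.prop.1, hK.prop.2, fun K' hK'K hK' hK'ne => ?_⟩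
  exact Subset.antisymm hK'K (hK.le_of_le ⟨hK', hK'ne⟩ hK'K)

section Main

variable {S : Type*} [Semigroup S] [TopologicalSpace S] [SeparatelyContinuousMul S]
variable {𝕜 : Type*} [RCLike 𝕜] {E : Type*} [AddCommGroup E] [Module 𝕜 E] [Module ℝ E]
  [IsScalarTower ℝ 𝕜 E] [TopologicalSpace E]
variable {ι : Type*} {q : SeminormFamily 𝕜 E ι}

/-- the vector of `E` underlying a point of `C` -/
noncomputable def vec {C : Set (WeakSpace 𝕜 E)} (x : C) : E := (toWeakSpace 𝕜 E).symm x.1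

theorem vec_inj {C : Set (WeakSpace 𝕜 E)} {x y : C} (h : vec x = vec y) : x = y :=
  Subtype.ext ((toWeakSpace 𝕜 E).symm.injective h)

/-- the pseudometric on `C` -/
noncomputable def dst (q : SeminormFamily 𝕜 E ι) (i : ι) {C : Set (WeakSpace 𝕜 E)} (x y : C) : ℝ :=
  q i (vec x - vec y)

theorem pm_dst (hq : WithSeminorms q) {C : Set (WeakSpace 𝕜 E)} {T : S → C → C}
    (hT : IsRep q C T) (i : ι) : PM T (dst q i) where
  symm x y := map_sub_rev _ _ _
  tri x y z := by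
    have e : vec x - vec z = (vec x - vec y) + (vec y - vec z) := by abel
    change q i (vec x - vec z) ≤ q i (vec x - vec y) + q i (vec y - vec z)
    rw [e]
    exact map_add_le_add _ _ _
  refl x := by
    change q i (vec x - vec x) = 0
    rw [sub_self, map_zero]
  lsc r := by
    have hc : Continuous fun z : C × C => (z.1 : WeakSpace 𝕜 E) - (z.2 : WeakSpace 𝕜 E) :=
      (continuous_subtype_val.comp continuous_fst).sub (continuous_subtype_val.comp continuous_snd)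
    have := (closed_ball_weak hq i r).preimage hc
    have e : {z : C × C | dst q i z.1 z.2 ≤ r} =
        (fun z : C × C => (z.1 : WeakSpace 𝕜 E) - (z.2 : WeakSpace 𝕜 E)) ⁻¹'
          {v : WeakSpace 𝕜 E | q i ((toWeakSpace 𝕜 E).symm v) ≤ r} := by
      ext z
      change q i (vec z.1 - vec z.2) ≤ r ↔
        q i ((toWeakSpace 𝕜 E).symm ((z.1 : WeakSpace 𝕜 E) - (z.2 : WeakSpace 𝕜 E))) ≤ r
      have e2 : (toWeakSpace 𝕜 E).symm ((z.1 : WeakSpace 𝕜 E) - (z.2 : WeakSpace 𝕜 E)) =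
          vec z.1 - vec z.2 := map_sub _ _ _
      rw [e2]
    rw [e]
    exact this
  sep A hA ε hε := by
    obtain ⟨V, hV1, hV2, hV3⟩ := sep_weak hq i (Subtype.val '' A) (hA.image _) ε hε
    refine ⟨fun n => Subtype.val ⁻¹' V n, fun n => (hV1 n).preimage continuous_subtype_val,
      fun n x hx y hy => hV2 n _ hx _ hy, fun x hx => ?_⟩
    rw [closure_subtype] at hx
    obtain ⟨n, hn⟩ := mem_iUnion.1 (hV3 hx)
    exact mem_iUnion.2 ⟨n, hn⟩
  nonexp s x y := hT.nonexp i s x y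

theorem act_of_rep {C : Set (WeakSpace 𝕜 E)} {T : S → C → C} (hT : IsRep q C T) : Act T where
  mul := hT.mul
  cont_left := hT.cont_left
  quasi := hT.quasi

theorem dst_bdd [T2Space E] [Nonempty S] (hq : WithSeminorms q) {m : (S →ᵇ ℂ) → ℂ} (hm : IsLIM m)
    {C : Set (WeakSpace 𝕜 E)} (hCc : IsCompact C) {T : S → C → C} (hT : IsRep q C T) {F : Set C}
    (hF : MinInv T F) (i : ι) : ∃ B, ∀ x ∈ F, ∀ y ∈ F, dst q i x y ≤ B := by
  classical
  haveI := weak_t2 hq
  haveI : CompactSpace C := isCompact_iff_compactSpace.1 hCc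
  have hp := pm_dst hq hT i
  obtain ⟨t, ht, hnet⟩ := totally_bounded hm (act_of_rep hT) hF hp one_pos
  refine ⟨1 + (∑ a ∈ t, ∑ b ∈ t, dst q i a b) + 1, fun x hx y hy => ?_⟩
  obtain ⟨a, ha, hax⟩ := hnet x hx
  obtain ⟨b, hb, hby⟩ := hnet y hy
  have h0 : ∀ a b : C, 0 ≤ dst q i a b := fun a b => apply_nonneg _ _
  have h1 : dst q i a b ≤ ∑ b ∈ t, dst q i a b :=
    Finset.single_le_sum (f := fun b => dst q i a b) (fun c _ => h0 a c) hb
  have h2 : ∑ b ∈ t, dst q i a b ≤ ∑ a ∈ t, ∑ b ∈ t, dst q i a b :=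
    Finset.single_le_sum (f := fun a => ∑ b ∈ t, dst q i a b)
      (fun c _ => Finset.sum_nonneg fun d _ => h0 c d) ha
  have h3 := hp.tri x a y
  have h4 := hp.tri a b y
  rw [hp.symm x a] at h3
  linarith

/-- DeMarr's argument. -/
theorem dst_zero [T2Space E] [Nonempty S] (hq : WithSeminorms q) {m : (S →ᵇ ℂ) → ℂ}
    (hm : IsLIM m) {C : Set (WeakSpace 𝕜 E)} (hCc : IsCompact C) {T : S → C → C}
    (hT : IsRep q C T) {K F : Set C} (hKc : IsClosed K) (hKv : Convex ℝ (vec '' K))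
    (hKinv : ∀ s, ∀ x ∈ K, T s x ∈ K)
    (hKmin : ∀ K' ⊆ K, IsClosed K' → Convex ℝ (vec '' K') → (∀ s, ∀ x ∈ K', T s x ∈ K') →
      K'.Nonempty → K' = K)
    (hF : MinInv T F) (hFK : F ⊆ K) (i : ι) : ∀ x ∈ F, ∀ y ∈ F, dst q i x y = 0 := by
  classical
  haveI := weak_t2 hq
  haveI : CompactSpace C := isCompact_iff_compactSpace.1 hCc
  have hp := pm_dst hq hT i
  have h0 : ∀ a b : C, 0 ≤ dst q i a b := fun a b => apply_nonneg _ _
  obtain ⟨B, hB⟩ := dst_bdd hq hm hCc hT hF i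
  by_contra hcon
  push Not at hcon
  obtain ⟨x1, hx1, y1, hy1, hne⟩ := hcon
  have hpos : 0 < dst q i x1 y1 := lt_of_le_of_ne (h0 _ _) (Ne.symm hne)
  let D : Set ℝ := {r | ∃ x ∈ F, ∃ y ∈ F, r = dst q i x y}
  have hDb : BddAbove D := ⟨B, by rintro _ ⟨x, hx, y, hy, rfl⟩; exact hB x hx y hy⟩
  have hDn : D.Nonempty := ⟨_, x1, hx1, y1, hy1, rfl⟩
  let δ := sSup D
  have hδ : ∀ x ∈ F, ∀ y ∈ F, dst q i x y ≤ δ := fun x hx y hy =>
    le_csSup hDb ⟨x, hx, y, hy, rfl⟩
  have hδ0 : 0 < δ := hpos.trans_le (hδ _ hx1 _ hy1)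
  obtain ⟨t, ht, hnet⟩ := totally_bounded hm (act_of_rep hT) hF hp (half_pos hδ0)
  obtain ⟨a0, ha0, -⟩ := hnet x1 hx1
  have hcard : 0 < t.card := Finset.card_pos.2 ⟨a0, ha0⟩
  have hcardR : (0 : ℝ) < t.card := by exact_mod_cast hcard
  let w : ℝ := 1 / t.card
  have hw0 : 0 ≤ w := by positivity
  have hw1 : ∑ _x ∈ t, w = 1 := by
    rw [Finset.sum_const, nsmul_eq_mul]
    simp only [w]
    field_simp
  obtain ⟨u, huK, hu⟩ : ∑ x ∈ t, w • vec x ∈ vec '' K :=
    hKv.sum_mem (fun _ _ => hw0) hw1 (fun x hx => ⟨x, hFK (ht x hx), rfl⟩)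
  let r0 : ℝ := w * (δ / 2 + (t.card - 1) * δ)
  have hur : ∀ y ∈ F, dst q i u y ≤ r0 := by
    intro y hy
    have e : vec u - vec y = ∑ x ∈ t, w • (vec x - vec y) := by
      rw [hu]
      simp only [smul_sub, Finset.sum_sub_distrib]
      rw [← Finset.sum_smul, hw1, one_smul]
    have h1 : q i (∑ x ∈ t, w • (vec x - vec y)) ≤ ∑ x ∈ t, w • q i (vec x - vec y) :=
      (q i).convexOn.map_sum_le (fun _ _ => hw0) hw1 (fun _ _ => mem_univ _)
    obtain ⟨a, ha, hay⟩ := hnet y hy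
    have h2 : ∑ x ∈ t, w • q i (vec x - vec y) ≤ r0 := by
      simp only [smul_eq_mul, r0]
      rw [← Finset.mul_sum]
      refine mul_le_mul_of_nonneg_left ?_ hw0
      rw [← Finset.add_sum_erase _ _ ha]
      refine add_le_add hay ?_
      have h3 := Finset.sum_le_card_nsmul (t.erase a) (fun x => q i (vec x - vec y)) δ
        (fun x hx => hδ x (ht x (Finset.mem_of_mem_erase hx)) y hy)
      rw [Finset.card_erase_of_mem ha, nsmul_eq_mul, Nat.cast_sub hcard] at h3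
      simpa using h3
    change q i (vec u - vec y) ≤ r0
    rw [e]
    exact h1.trans h2
  have hr0 : r0 < δ := by
    simp only [r0, w]
    rw [one_div, inv_mul_lt_iff₀ hcardR]
    nlinarith
  let K' : Set C := {z | z ∈ K ∧ ∀ y ∈ F, dst q i z y ≤ r0}
  have hK'sub : K' ⊆ K := fun z hz => hz.1
  have hK'c : IsClosed K' := by
    have e : K' = K ∩ ⋂ y ∈ F, {z | dst q i z y ≤ r0} := by
      ext z
      simp only [K', mem_inter_iff, mem_iInter]
      exact Iff.rfl
    rw [e]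
    refine hKc.inter (isClosed_biInter fun y _ => ?_)
    have hc : Continuous fun z : C => (z, y) := continuous_id.prodMk continuous_const
    exact (hp.lsc r0).preimage hc
  have hK'v : Convex ℝ (vec '' K') := by
    rintro _ ⟨z1, hz1, rfl⟩ _ ⟨z2, hz2, rfl⟩ a b ha hb hab
    obtain ⟨z, hzK, hz⟩ := hKv ⟨z1, hz1.1, rfl⟩ ⟨z2, hz2.1, rfl⟩ ha hb hab
    refine ⟨z, ⟨hzK, fun y hy => ?_⟩, hz⟩
    have e : vec z - vec y = a • (vec z1 - vec y) + b • (vec z2 - vec y) := by
      rw [hz]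
      have : vec y = a • vec y + b • vec y := by rw [← add_smul, hab, one_smul]
      conv_lhs => rw [this]
      simp only [smul_sub]
      abel
    change q i (vec z - vec y) ≤ r0
    rw [e]
    have h1 := (q i).convexOn.2 (mem_univ (vec z1 - vec y)) (mem_univ (vec z2 - vec y)) ha hb hab
    refine h1.trans ?_
    have h2 : q i (vec z1 - vec y) ≤ r0 := hz1.2 y hy
    have h3 : q i (vec z2 - vec y) ≤ r0 := hz2.2 y hy
    simp only [smul_eq_mul]
    calc a * q i (vec z1 - vec y) + b * q i (vec z2 - vec y) ≤ a * r0 + b * r0 :=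
          add_le_add (mul_le_mul_of_nonneg_left h2 ha) (mul_le_mul_of_nonneg_left h3 hb)
      _ = r0 := by rw [← add_mul, hab, one_mul]
  have hK'inv : ∀ s, ∀ x ∈ K', T s x ∈ K' := by
    intro s z hz
    refine ⟨hKinv s z hz.1, fun y hy => ?_⟩
    have honto : T s '' F = F :=
      hF.onto hm (act_of_rep hT) (subset_closure ⟨s, rfl⟩)
    rw [← honto] at hy
    obtain ⟨y', hy', rfl⟩ := hy
    exact (hp.nonexp s z y').trans (hz.2 y' hy')
  have hK'eq : K' = K := hKmin K' hK'sub hK'c hK'v hK'inv ⟨u, huK, hur⟩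
  have hle : δ ≤ r0 := by
    refine csSup_le hDn ?_
    rintro _ ⟨x, hx, y, hy, rfl⟩
    have hxK : x ∈ K' := by rw [hK'eq]; exact hFK hx
    exact hxK.2 y hy
  exact absurd hr0 (not_lt.2 hle)

/-- Existence of a common fixed point. -/
theorem exists_fixed [T2Space E] (hq : WithSeminorms q) {m : (S →ᵇ ℂ) → ℂ}
    (hm : IsLIM m) {C : Set (WeakSpace 𝕜 E)} (hCc : IsCompact C) (hCn : C.Nonempty)
    (hCv : Convex ℝ (toWeakSpace 𝕜 E ⁻¹' C)) {T : S → C → C}
    (hT : IsRep q C T) : ∃ x : C, ∀ s, T s x = x := by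
  classical
  haveI := weak_t2 hq
  haveI : CompactSpace C := isCompact_iff_compactSpace.1 hCc
  haveI : Nonempty C := hCn.to_subtype
  rcases isEmpty_or_nonempty S with hS | hS
  · exact ⟨Classical.arbitrary C, fun s => hS.elim s⟩
  obtain ⟨K, -, ⟨hKc, hKv, hKinv⟩, hKne, hKmin⟩ := exists_minimal
    (fun K : Set C => IsClosed K ∧ Convex ℝ (vec '' K) ∧ ∀ s, ∀ x ∈ K, T s x ∈ K)
    (fun K hK => hK.1) (by
      intro c hc hcP
      refine ⟨isClosed_sInter fun K hK => (hcP K hK).1, ?_, fun s x hx K hK =>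
        (hcP K hK).2.2 s x (hx K hK)⟩
      rintro _ ⟨z1, hz1, rfl⟩ _ ⟨z2, hz2, rfl⟩ a b ha hb hab
      obtain ⟨K1, hK1⟩ := hc
      obtain ⟨z, hzK, hz⟩ := (hcP K1 hK1).2.1 ⟨z1, hz1 K1 hK1, rfl⟩ ⟨z2, hz2 K1 hK1, rfl⟩ ha hb hab
      refine ⟨z, fun K hK => ?_, hz⟩
      obtain ⟨z', hz'K, hz'⟩ := (hcP K hK).2.1 ⟨z1, hz1 K hK, rfl⟩ ⟨z2, hz2 K hK, rfl⟩ ha hb hab
      have : z = z' := vec_inj (hz.trans hz'.symm)
      rw [this]
      exact hz'K) univ ⟨isClosed_univ, by
        have e : vec '' (univ : Set C) = toWeakSpace 𝕜 E ⁻¹' C := by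
          ext v
          constructor
          · rintro ⟨z, -, rfl⟩
            change toWeakSpace 𝕜 E ((toWeakSpace 𝕜 E).symm z.1) ∈ C
            rw [LinearEquiv.apply_symm_apply]
            exact z.2
          · intro hv
            exact ⟨⟨toWeakSpace 𝕜 E v, hv⟩, mem_univ _, LinearEquiv.symm_apply_apply _ _⟩
        rw [e]
        exact hCv, fun _ _ _ => mem_univ _⟩ univ_nonempty
  obtain ⟨F, hFK, ⟨hFc, hFinv⟩, hFne, hFmin⟩ := exists_minimal
    (fun K : Set C => IsClosed K ∧ ∀ s, ∀ x ∈ K, T s x ∈ K) (fun K hK => hK.1) (by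
      intro c hc hcP
      exact ⟨isClosed_sInter fun K hK => (hcP K hK).1, fun s x hx K hK =>
        (hcP K hK).2 s x (hx K hK)⟩) K ⟨hKc, hKinv⟩ hKne
  have hF : MinInv T F := ⟨hFc, hFne, hFinv, fun F' h1 h2 h3 h4 => hFmin F' h1 ⟨h2, h4⟩ h3⟩
  have hz := dst_zero hq hm hCc hT hKc hKv hKinv
    (fun K' h1 h2 h3 h4 h5 => hKmin K' h1 ⟨h2, h3, h4⟩ h5) hF hFK
  obtain ⟨x, hx⟩ := hFne
  refine ⟨x, fun s => ?_⟩
  by_contra hne
  have hv : vec (T s x) - vec x ≠ 0 := fun h => hne (vec_inj (sub_eq_zero.1 h))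
  obtain ⟨i, hi⟩ := hq.separating_of_T1 _ hv
  exact hi (hz i _ (hFinv s x hx) _ hx)

end Main

end Pool.Agent.TH550.WAP
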