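import Pool.Agent.H731R2.Riesz

/-!
# Grothendieck's theorem on pointwise compact sets of continuous functions

If `P` is compact and `Ψ : P → C(X, ℂ)` is bounded and continuous for the topology of pointwise
convergence, then it is continuous for the weak topology.
-/

set_option autoImplicit false

open Filter Topology Set MeasureTheory

namespace Pool.Agent.TH550.WAP

/-- Dominated convergence for functionals on `C(X)`. -/
theorem tendsto_of_pointwise {X : Type*} [TopologicalSpace X] [CompactSpace X] [T2Space X]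
    (Λ : StrongDual ℂ C(X, ℂ)) (f : ℕ → C(X, ℂ)) (g : C(X, ℂ)) (M : ℝ)
    (hM : ∀ n x, ‖f n x‖ ≤ M) (h : ∀ x, Tendsto (fun n => f n x) atTop (𝓝 (g x))) :
    Tendsto (fun n => Λ (f n)) atTop (𝓝 (Λ g)) := by
  letI : MeasurableSpace X := borel X
  haveI : BorelSpace X := ⟨rfl⟩
  obtain ⟨μ, hμ, -, hdom⟩ := Pool.Agent.H731R2.exists_dominating_measure Λ
  rw [tendsto_iff_norm_sub_tendsto_zero]
  have hg : ∀ x, ‖g x‖ ≤ M := fun x =>
    le_of_tendsto (h x).norm (Eventually.of_forall fun n => hM n x)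
  have h1 : Tendsto (fun n => ∫ x, ‖(f n - g) x‖ ∂μ) atTop (𝓝 (∫ x : X, (0 : ℝ) ∂μ)) := by
    apply tendsto_integral_of_dominated_convergence (fun _ => M + M)
    · intro n
      exact (map_continuous (f n - g)).norm.aestronglyMeasurable
    · exact integrable_const _
    · intro n
      refine Eventually.of_forall fun x => ?_
      rw [norm_norm, ContinuousMap.sub_apply]
      exact (norm_sub_le _ _).trans (add_le_add (hM n x) (hg x))
    · refine Eventually.of_forall fun x => ?_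
      have h2 := tendsto_iff_norm_sub_tendsto_zero.1 (h x)
      simpa using h2
  rw [integral_zero] at h1
  refine squeeze_zero (fun n => norm_nonneg _) (fun n => ?_) h1
  rw [← map_sub]
  exact hdom _

/-- Finite nets for finitely many continuous functions. -/
theorem exists_net {P X : Type*} [TopologicalSpace X] [CompactSpace X]
    (Ψ : P → C(X, ℂ)) (Q : Finset P) (η : ℝ) (hη : 0 < η) :
    ∃ D : Finset X, ∀ x, ∃ y ∈ D, ∀ q ∈ Q, ‖Ψ q x - Ψ q y‖ < η := by
  have hU : ∀ y : X, {x | ∀ q ∈ Q, ‖Ψ q x - Ψ q y‖ < η} ∈ 𝓝 y := by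
    intro y
    have h1 : ∀ q ∈ Q, ∀ᶠ x in 𝓝 y, ‖Ψ q x - Ψ q y‖ < η := by
      intro q _
      have hc : Continuous fun x => ‖Ψ q x - Ψ q y‖ := by fun_prop
      have := hc.tendsto y
      simp only [sub_self, norm_zero] at this
      exact this.eventually (gt_mem_nhds hη)
    have := (Finset.eventually_all Q).2 h1
    exact this
  obtain ⟨D, hD⟩ := CompactSpace.elim_nhds_subcover _ hU
  refine ⟨D, fun x => ?_⟩
  have hx : x ∈ (⊤ : Set X) := trivial
  rw [← hD] at hx
  simp only [mem_iUnion] at hx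
  obtain ⟨y, hy, hxy⟩ := hx
  exact ⟨y, hy, hxy⟩

/-- Pointwise continuity implies weak continuity, for compact parameter spaces. -/
theorem continuous_functional {P X : Type*} [TopologicalSpace P] [CompactSpace P]
    [TopologicalSpace X] [CompactSpace X] [T2Space X] (Ψ : P → C(X, ℂ)) (M : ℝ)
    (hM : ∀ p x, ‖Ψ p x‖ ≤ M) (hc : ∀ x, Continuous fun p => Ψ p x)
    (Λ : StrongDual ℂ C(X, ℂ)) : Continuous fun p => Λ (Ψ p) := by
  classical
  rw [continuous_iff_continuousAt]
  intro p0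
  by_contra hnot
  unfold ContinuousAt at hnot
  rw [Metric.tendsto_nhds] at hnot
  push Not at hnot
  obtain ⟨ε, hε, hfreq⟩ := hnot
  -- `B` : bad parameters
  have hB : ∀ V ∈ 𝓝 p0, ∃ p ∈ V, ε ≤ dist (Λ (Ψ p)) (Λ (Ψ p0)) := by
    intro V hV
    obtain ⟨p, hp, hpV⟩ := (hfreq.and_eventually hV).exists
    exact ⟨p, hpV, hp⟩
  have step : ∀ (n : ℕ) (Q : Finset P) (D : Finset X), ∃ (p' : P) (D' : Finset X), D ⊆ D' ∧
      (∀ x, ∃ y ∈ D', ∀ q ∈ insert p0 Q, ‖Ψ q x - Ψ q y‖ < 1 / ((n : ℝ) + 1)) ∧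
      ε ≤ dist (Λ (Ψ p')) (Λ (Ψ p0)) ∧
      ∀ y ∈ D', ‖Ψ p' y - Ψ p0 y‖ < 1 / ((n : ℝ) + 1) := by
    intro n Q D
    have hn : (0 : ℝ) < 1 / ((n : ℝ) + 1) := by positivity
    obtain ⟨D1, hD1⟩ := exists_net Ψ (insert p0 Q) _ hn
    have hV : {p | ∀ y ∈ D ∪ D1, ‖Ψ p y - Ψ p0 y‖ < 1 / ((n : ℝ) + 1)} ∈ 𝓝 p0 := by
      have h1 : ∀ y ∈ D ∪ D1, ∀ᶠ p in 𝓝 p0, ‖Ψ p y - Ψ p0 y‖ < 1 / ((n : ℝ) + 1) := by
        intro y _
        have hcy : Continuous fun p => ‖Ψ p y - Ψ p0 y‖ := ((hc y).sub continuous_const).norm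
        have := hcy.tendsto p0
        simp only [sub_self, norm_zero] at this
        exact this.eventually (gt_mem_nhds hn)
      exact (Finset.eventually_all (D ∪ D1)).2 h1
    obtain ⟨p', hp', hbad⟩ := hB _ hV
    refine ⟨p', D ∪ D1, Finset.subset_union_left, ?_, hbad, hp'⟩
    intro x
    obtain ⟨y, hy, hxy⟩ := hD1 x
    exact ⟨y, Finset.mem_union_right _ hy, hxy⟩
  choose pf Df h1 h2 h3 h4 using step
  let st : ℕ → Finset P × Finset X := fun n =>
    Nat.rec (∅, ∅) (fun n s => (insert (pf n s.1 s.2) s.1, Df n s.1 s.2)) n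
  have st_succ : ∀ n, st (n + 1) = (insert (pf n (st n).1 (st n).2) (st n).1,
      Df n (st n).1 (st n).2) := fun n => rfl
  let p : ℕ → P := fun n => pf n (st n).1 (st n).2
  let D : ℕ → Finset X := fun n => Df n (st n).1 (st n).2
  have hst1 : ∀ n, (st (n + 1)).1 = insert (p n) (st n).1 := fun n => rfl
  have hst2 : ∀ n, (st (n + 1)).2 = D n := fun n => rfl
  have hp_mem : ∀ k n, k < n → p k ∈ (st n).1 := by
    intro k n hkn
    induction n with
    | zero => omega
    | succ n ih =>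
      rw [hst1]
      rcases Nat.lt_succ_iff_lt_or_eq.1 hkn with h | h
      · exact Finset.mem_insert_of_mem (ih h)
      · rw [h]; exact Finset.mem_insert_self _ _
  have hD_succ : ∀ n, D n ⊆ D (n + 1) := by
    intro n
    have := h1 (n + 1) (st (n + 1)).1 (st (n + 1)).2
    rw [hst2] at this
    exact this
  have hD_mono : ∀ m n, m ≤ n → D m ⊆ D n := by
    intro m n hmn
    induction hmn with
    | refl => exact fun _ h => h
    | step _ ih => exact fun y hy => hD_succ _ (ih hy)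
  have hp_bad : ∀ n, ε ≤ dist (Λ (Ψ (p n))) (Λ (Ψ p0)) := fun n => h3 n _ _
  have hp_near : ∀ n, ∀ y ∈ D n, ‖Ψ (p n) y - Ψ p0 y‖ < 1 / ((n : ℝ) + 1) := fun n => h4 n _ _
  have hp_net : ∀ n x, ∃ y ∈ D n, ∀ q ∈ insert p0 (st n).1,
      ‖Ψ q x - Ψ q y‖ < 1 / ((n : ℝ) + 1) := fun n => h2 n _ _
  have hlim0 : Tendsto (fun n : ℕ => 1 / ((n : ℝ) + 1)) atTop (𝓝 0) :=
    tendsto_one_div_add_atTop_nhds_zero_nat
  -- pointwise convergence
  have hpt : ∀ x, Tendsto (fun n => Ψ (p n) x) atTop (𝓝 (Ψ p0 x)) := by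
    intro x
    rw [tendsto_iff_ultrafilter]
    intro U hU
    choose y hyD hy using fun n => hp_net n x
    obtain ⟨pl, -, hpl⟩ := (isCompact_univ (X := P)).ultrafilter_le_nhds (U.map p)
      (by simp)
    obtain ⟨yl, -, hyl⟩ := (isCompact_univ (X := X)).ultrafilter_le_nhds (U.map y)
      (by simp)
    have hpl' : Tendsto p U (𝓝 pl) := hpl
    have hyl' : Tendsto y U (𝓝 yl) := hyl
    have hlimU : Tendsto (fun n : ℕ => 1 / ((n : ℝ) + 1)) U (𝓝 0) := hlim0.mono_left hU
    -- `Ψ (p k) x = Ψ (p k) yl`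
    have e1 : ∀ q : P, (∀ᶠ n in atTop, q ∈ insert p0 (st n).1) → Ψ q x = Ψ q yl := by
      intro q hq
      have ha : Tendsto (fun n => ‖Ψ q x - Ψ q (y n)‖) U (𝓝 0) := by
        refine squeeze_zero' (Eventually.of_forall fun n => norm_nonneg _) ?_ hlimU
        exact (hq.filter_mono hU).mono fun n hn => (hy n q hn).le
      have hb : Tendsto (fun n => ‖Ψ q x - Ψ q (y n)‖) U (𝓝 ‖Ψ q x - Ψ q yl‖) := by
        have hcont : Continuous fun z => ‖Ψ q x - Ψ q z‖ := by fun_prop
        exact (hcont.tendsto yl).comp hyl'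
      have := tendsto_nhds_unique hb ha
      rw [norm_eq_zero, sub_eq_zero] at this
      exact this
    have e2 : Ψ p0 x = Ψ p0 yl := e1 p0 (Eventually.of_forall fun n => Finset.mem_insert_self _ _)
    have e3 : ∀ k, Ψ (p k) x = Ψ (p k) yl := by
      intro k
      apply e1
      filter_upwards [eventually_gt_atTop k] with n hn
      exact Finset.mem_insert_of_mem (hp_mem k n hn)
    have e4 : Ψ pl x = Ψ pl yl := by
      have ha : Tendsto (fun k => Ψ (p k) x) U (𝓝 (Ψ pl x)) := ((hc x).tendsto pl).comp hpl'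
      have hb : Tendsto (fun k => Ψ (p k) yl) U (𝓝 (Ψ pl yl)) := ((hc yl).tendsto pl).comp hpl'
      have hab : (fun k => Ψ (p k) x) = fun k => Ψ (p k) yl := funext e3
      rw [hab] at ha
      exact tendsto_nhds_unique ha hb
    have e5 : ∀ m, Ψ pl (y m) = Ψ p0 (y m) := by
      intro m
      have ha : Tendsto (fun n => ‖Ψ (p n) (y m) - Ψ p0 (y m)‖) U (𝓝 0) := by
        refine squeeze_zero' (Eventually.of_forall fun n => norm_nonneg _) ?_ hlimU
        refine Eventually.filter_mono hU ?_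
        filter_upwards [eventually_ge_atTop m] with n hn
        exact (hp_near n _ (hD_mono m n hn (hyD m))).le
      have hb : Tendsto (fun n => ‖Ψ (p n) (y m) - Ψ p0 (y m)‖) U
          (𝓝 ‖Ψ pl (y m) - Ψ p0 (y m)‖) :=
        ((((hc (y m)).tendsto pl).comp hpl').sub tendsto_const_nhds).norm
      have := tendsto_nhds_unique hb ha
      rw [norm_eq_zero, sub_eq_zero] at this
      exact this
    have e6 : Ψ pl yl = Ψ p0 yl := by
      have ha : Tendsto (fun m => Ψ pl (y m)) U (𝓝 (Ψ pl yl)) :=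
        ((map_continuous (Ψ pl)).tendsto yl).comp hyl'
      have hb : Tendsto (fun m => Ψ p0 (y m)) U (𝓝 (Ψ p0 yl)) :=
        ((map_continuous (Ψ p0)).tendsto yl).comp hyl'
      have hab : (fun m => Ψ pl (y m)) = fun m => Ψ p0 (y m) := funext e5
      rw [hab] at ha
      exact tendsto_nhds_unique ha hb
    have e7 : Ψ pl x = Ψ p0 x := by rw [e4, e6, e2]
    rw [← e7]
    exact ((hc x).tendsto pl).comp hpl'
  have hfin := tendsto_of_pointwise Λ (fun n => Ψ (p n)) (Ψ p0) M (fun n x => hM _ x) hpt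
  rw [Metric.tendsto_atTop] at hfin
  obtain ⟨N, hN⟩ := hfin ε hε
  exact absurd (hN N le_rfl) (not_lt.2 (hp_bad N))

end Pool.Agent.TH550.WAP
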