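import Pool.Agent.TH550.WAP.Dyn

/-!
# Minimal sets are totally bounded
-/

set_option autoImplicit false
set_option linter.unusedSectionVars false
set_option linter.unusedVariables false
set_option linter.style.haveILetI false

open Filter Topology Set BoundedContinuousFunction

namespace Pool.Agent.TH550.WAP

variable {S : Type*} [Semigroup S] [TopologicalSpace S] [SeparatelyContinuousMul S]
variable {X : Type*} [TopologicalSpace X] [CompactSpace X] [T2Space X]

/-- A lower semicontinuous pseudometric for which countable sets have separable closures, and for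
which the action is nonexpansive. -/
structure PM (T : S → X → X) (p : X → X → ℝ) : Prop where
  symm : ∀ x y, p x y = p y x
  tri : ∀ x y z, p x z ≤ p x y + p y z
  refl : ∀ x, p x x = 0
  lsc : ∀ r, IsClosed {z : X × X | p z.1 z.2 ≤ r}
  sep : ∀ A : Set X, A.Countable → ∀ ε : ℝ, 0 < ε → ∃ V : ℕ → Set X, (∀ n, IsClosed (V n)) ∧
    (∀ n, ∀ x ∈ V n, ∀ y ∈ V n, p x y ≤ ε) ∧ closure A ⊆ ⋃ n, V n
  nonexp : ∀ s x y, p (T s x) (T s y) ≤ p x y

theorem PM.env {T : S → X → X} {p : X → X → ℝ} (hp : PM T p) {σ : X → X} (hσ : σ ∈ Env T)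
    (x y : X) : p (σ x) (σ y) ≤ p x y := by
  have hc : Continuous fun σ : X → X => (σ x, σ y) :=
    (continuous_apply x).prodMk (continuous_apply y)
  have h1 : IsClosed ((fun σ : X → X => (σ x, σ y)) ⁻¹' {z : X × X | p z.1 z.2 ≤ p x y}) :=
    (hp.lsc (p x y)).preimage hc
  have h2 : range T ⊆ (fun σ : X → X => (σ x, σ y)) ⁻¹' {z : X × X | p z.1 z.2 ≤ p x y} := by
    rintro _ ⟨s, rfl⟩
    exact hp.nonexp s x y
  exact (h1.closure_subset_iff.2 h2) hσ

theorem freeSemigroup_countable : Countable (FreeSemigroup ℕ) := by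
  have : Function.Injective fun w : FreeSemigroup ℕ => (w.head, w.tail) := by
    rintro ⟨a, b⟩ ⟨c, d⟩ h
    simp only [Prod.mk.injEq] at h
    rw [h.1, h.2]
  exact this.countable

theorem totally_bounded [Nonempty S] {m : (S →ᵇ ℂ) → ℂ} (hm : IsLIM m) {T : S → X → X}
    (hT : Act T) {F : Set X} (hF : MinInv T F) {p : X → X → ℝ} (hp : PM T p) {ε : ℝ}
    (hε : 0 < ε) : ∃ t : Finset X, (∀ x ∈ t, x ∈ F) ∧ ∀ y ∈ F, ∃ x ∈ t, p x y ≤ ε := by
  classical
  by_contra hcon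
  push Not at hcon
  obtain ⟨x0, hx0⟩ := hF.nonempty
  -- a separated sequence in the orbit of `x0`
  obtain ⟨g, -, hg⟩ := exists_seq_of_forall_finset_exists (fun _ : S => True)
    (fun a b => ε < p (T a x0) (T b x0)) (by
      intro G _
      obtain ⟨y, hy, hyG⟩ := hcon (G.image fun a => T a x0) (by
        intro x hx
        obtain ⟨a, -, rfl⟩ := Finset.mem_image.1 hx
        exact hF.inv a x0 hx0)
      have hopen : IsOpen {z | ∀ a ∈ G, ε < p (T a x0) z} := by
        have : {z | ∀ a ∈ G, ε < p (T a x0) z} = ⋂ a ∈ G, {z | ε < p (T a x0) z} := by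
          ext z; simp
        rw [this]
        refine isOpen_biInter_finset fun a _ => ?_
        have hc' : Continuous fun z : X => (T a x0, z) := continuous_const.prodMk continuous_id
        have hc : IsClosed {z | p (T a x0) z ≤ ε} := (hp.lsc ε).preimage hc'
        have : {z | ε < p (T a x0) z} = {z | p (T a x0) z ≤ ε}ᶜ := by
          ext z; simp
        rw [this]
        exact hc.isOpen_compl
      have hmem : y ∈ {z | ∀ a ∈ G, ε < p (T a x0) z} := fun a ha =>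
        hyG _ (Finset.mem_image_of_mem _ ha)
      have hcl : y ∈ closure (range fun s => T s x0) := by rw [hF.orbit hT hx0]; exact hy
      obtain ⟨_, hz1, ⟨s, rfl⟩⟩ := mem_closure_iff.1 hcl _ hopen hmem
      exact ⟨s, trivial, hz1⟩)
  -- the countable subsemigroup
  haveI := freeSemigroup_countable
  let φ : FreeSemigroup ℕ →ₙ* S := FreeSemigroup.lift g
  have hφ : ∀ n, φ (FreeSemigroup.of n) = g n := fun n => FreeSemigroup.lift_of g n
  let R : Set (X → X) := range fun w => T (φ w)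
  have hRT : R ⊆ range T := by
    rintro _ ⟨w, rfl⟩
    exact ⟨φ w, rfl⟩
  have hRE : closure R ⊆ Env T := closure_mono hRT
  have hRc : ∀ σ ∈ R, Continuous σ := fun σ hσ => hT.quasi σ (hRE (subset_closure hσ))
  have hRm : ∀ σ ∈ R, ∀ τ ∈ R, σ ∘ τ ∈ R := by
    rintro _ ⟨v, rfl⟩ _ ⟨w, rfl⟩
    refine ⟨v * w, ?_⟩
    funext x
    simp only [map_mul, Function.comp_apply]
    exact hT.mul _ _ _
  have hAm := closure_comp hRc hRm
  have hinv : ∀ σ ∈ closure R, ∃ τ ∈ closure R, ∀ y ∈ F, τ (σ y) = y := fun σ hσ =>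
    exists_left_inv isClosed_closure hAm (fun ρ hρ => hF.onto hm hT (hRE hρ)) hσ
  have hiso : ∀ σ ∈ closure R, ∀ x ∈ F, ∀ y ∈ F, p x y ≤ p (σ x) (σ y) := by
    intro σ hσ x hx y hy
    obtain ⟨τ, hτ, hτσ⟩ := hinv σ hσ
    have := hp.env (hRE hτ) (σ x) (σ y)
    rwa [hτσ x hx, hτσ y hy] at this
  let F0 : Set X := (fun σ : X → X => σ x0) '' closure R
  have hF0F : F0 ⊆ F := by
    rintro _ ⟨σ, hσ, rfl⟩
    exact hF.env_mem (hRE hσ) hx0
  have hRcomp : IsCompact (closure R) := isClosed_closure.isCompact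
  have hF0c : IsCompact F0 := hRcomp.image (continuous_apply x0)
  have hF0eq : F0 ⊆ closure (range fun w => T (φ w) x0) := by
    rintro _ ⟨σ, hσ, rfl⟩
    have hmaps : MapsTo (fun σ : X → X => σ x0) R (range fun w => T (φ w) x0) := by
      rintro _ ⟨w, rfl⟩
      exact ⟨w, rfl⟩
    exact hmaps.closure (continuous_apply x0) hσ
  have hF0min : ∀ y ∈ F0, ∀ U : Set X, IsOpen U → (U ∩ F0).Nonempty → ∃ w, T (φ w) y ∈ U := by
    rintro _ ⟨σ, hσ, rfl⟩ U hU ⟨z, hzU, ⟨ρ, hρ, rfl⟩⟩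
    obtain ⟨τ, hτ, hτσ⟩ := hinv σ hσ
    have hmem : ρ ∘ τ ∈ closure R := hAm ρ hρ τ hτ
    have hopen : IsOpen {κ : X → X | κ (σ x0) ∈ U} := hU.preimage (continuous_apply (σ x0))
    have hin : ρ ∘ τ ∈ {κ : X → X | κ (σ x0) ∈ U} := by
      change ρ (τ (σ x0)) ∈ U
      rw [hτσ x0 hx0]
      exact hzU
    obtain ⟨_, hz1, ⟨w, rfl⟩⟩ := mem_closure_iff.1 hmem _ hopen hin
    exact ⟨w, hz1⟩
  -- Baire
  obtain ⟨V, hVc, hVd, hVcov⟩ := hp.sep (range fun w => T (φ w) x0) (countable_range _) ε hε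
  haveI : CompactSpace F0 := isCompact_iff_compactSpace.1 hF0c
  haveI : Nonempty F0 := ⟨⟨_, ⟨T (φ (FreeSemigroup.of 0)), subset_closure ⟨_, rfl⟩, rfl⟩⟩⟩
  obtain ⟨n, hn⟩ := nonempty_interior_of_iUnion_of_closed
    (f := fun n => ((↑) : F0 → X) ⁻¹' (V n)) (fun n => (hVc n).preimage continuous_subtype_val) (by
      rw [eq_univ_iff_forall]
      rintro ⟨z, hz⟩
      obtain ⟨i, hi⟩ := mem_iUnion.1 (hVcov (hF0eq hz))
      exact mem_iUnion.2 ⟨i, hi⟩)
  obtain ⟨z, hz⟩ := hn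
  obtain ⟨U', hU'sub, hU'open, hzU'⟩ := mem_interior.1 hz
  obtain ⟨U, hU, rfl⟩ := isOpen_induced_iff.1 hU'open
  have hUV : ∀ y ∈ F0, y ∈ U → y ∈ V n := fun y hy hyU => hU'sub (a := ⟨y, hy⟩) hyU
  -- finite cover
  obtain ⟨W, hW⟩ := hF0c.elim_finite_subcover (fun w => (T (φ w)) ⁻¹' U)
    (fun w => hU.preimage (hT.cont_right _)) (by
      intro y hy
      obtain ⟨w, hw⟩ := hF0min y hy U hU ⟨z.1, hzU', z.2⟩
      exact mem_iUnion.2 ⟨w, hw⟩)
  have hgF0 : ∀ k, T (g k) x0 ∈ F0 := fun k =>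
    ⟨T (g k), subset_closure ⟨FreeSemigroup.of k, by simp only [hφ]⟩, rfl⟩
  have hpick : ∀ k, ∃ w : W, T (φ w) (T (g k) x0) ∈ U := by
    intro k
    have := hW (hgF0 k)
    simp only [mem_iUnion, exists_prop] at this
    obtain ⟨w, hw, hwU⟩ := this
    exact ⟨⟨w, hw⟩, hwU⟩
  choose c hc using hpick
  obtain ⟨i, j, hij, hcij⟩ := Finite.exists_ne_map_eq_of_infinite c
  have key : ∀ i j, i < j → c i = c j → False := by
    intro i j hlt hcij
    have h1 : ∀ k, T (φ (c k)) (T (g k) x0) ∈ F0 := by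
      intro k
      obtain ⟨σ, hσ, hσk⟩ := hgF0 k
      refine ⟨T (φ (c k)) ∘ σ, hAm _ (subset_closure ⟨_, rfl⟩) _ hσ, ?_⟩
      change T (φ (c k)) (σ x0) = _
      exact congrArg _ hσk
    have h2 := hVd n _ (hUV _ (h1 i) (hc i)) _ (hUV _ (h1 j) (hc j))
    rw [hcij] at h2
    have h3 := hiso (T (φ (c j))) (subset_closure ⟨_, rfl⟩) _ (hF0F (hgF0 i)) _ (hF0F (hgF0 j))
    exact absurd (h3.trans h2) (not_le.2 (hg i j hlt))
  rcases lt_or_gt_of_ne hij with h | h
  · exact key i j h hcij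
  · exact key j i h hcij.symm

end Pool.Agent.TH550.WAP
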